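import Pool.Agent.Results.MP_b6b996_nt.EveryShortArc
import Pool.Agent.H373R2.T7.SupMu

/-!
# MP_6cded1_nt: the `L^1` norm of the Möbius exponential sum on every short arc

`F_R(x) = ∑_{n ≤ R} μ(n) e(nx)`. It is shown that the `L^1` norm of `F_R` over every arc of fixed length, and
even over every arc of length `C (log log log R)² / log log R`, exceeds every power of `log R`; and that on
every arc of fixed length the product of the `L^1` norm and the maximum is at least `c R`, for all sums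
over short intervals and for all coefficients with the support of `μ`.
-/

set_option autoImplicit false

open Filter Topology MeasureTheory

namespace Pool.Agent.Results.MP_6cded1_nt.EveryArc

/-- The exponential sum `∑_{N < n ≤ N + R} a(n) e^{2πinx}`. -/
noncomputable def expSum (a : ℕ → ℂ) (N R : ℕ) (x : ℝ) : ℂ :=
  ∑ n ∈ Finset.Ioc N (N + R), a n * Complex.exp (2 * Real.pi * Complex.I * n * x)

/-- The coefficients vanish at the integers which are not squarefree, they have absolute value one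
at the squarefree integers prime to `P`, and at most one at all others. -/
structure Coef (P : ℕ) (a : ℕ → ℂ) : Prop where
  zero : ∀ n, ¬ Squarefree n → a n = 0
  one : ∀ n, Squarefree n → n.Coprime P → ‖a n‖ = 1
  le : ∀ n, ‖a n‖ ≤ 1

/-- `F_R(x) = ∑_{n ≤ R} μ(n) e^{2πinx}`. -/
noncomputable def F (R : ℕ) (x : ℝ) : ℂ :=
  expSum (fun n => ((ArithmeticFunction.moebius n : ℤ) : ℂ)) 0 R x

lemma expSum_eq (a : ℕ → ℂ) (N R : ℕ) (x : ℝ) :
    expSum a N R x = MP_b6b996_nt.EveryShortArc.expSum a N R x := rfl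

lemma Coef.old {P : ℕ} {a : ℕ → ℂ} (h : Coef P a) : MP_b6b996_nt.EveryShortArc.Coef P a :=
  ⟨h.zero, h.one, h.le⟩

lemma cont (a : ℕ → ℂ) (N R : ℕ) : Continuous (expSum a N R) := by
  unfold expSum
  fun_prop

/-- the mass of short arcs, with a free parameter `L` -/
lemma shrinkCore {P : ℕ} (hP : 0 < P) {η : ℝ} (hη : 0 < η) (hη1 : η ≤ 1) :
    ∃ C L₀ : ℝ, ∀ L : ℝ, L₀ ≤ L → ∀ δ : ℝ, 0 < δ → δ ≤ 1 →
      C * Real.log L ^ 2 ≤ δ * L → ∀ N R : ℕ,
      8 * (Real.exp (η * L) * P) * (1 + Real.sqrt (N + R)) ≤ R → ∀ a, Coef P a → ∀ α : ℝ,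
      R * Real.exp (-(2 * η * L)) ≤ ∫ x in α..(α + δ), ‖expSum a N R x‖ ^ 2 := by
  have hl16 : 0 < Real.log 16 := Real.log_pos (by norm_num)
  have hl16' : 1 ≤ Real.log 16 := by
    have h1 : Real.log 16 = 4 * Real.log 2 := by
      rw [show (16 : ℝ) = 2 ^ 4 by norm_num, Real.log_pow]
      norm_num
    have := Real.log_two_gt_d9
    linarith
  have hP1 : (1 : ℝ) ≤ P := by exact_mod_cast hP
  obtain ⟨c, hc⟩ : ∃ c, c = η / Real.log 16 := ⟨_, rfl⟩
  have hc0 : 0 < c := by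
    rw [hc]
    positivity
  have hc1 : c ≤ 1 := by
    rw [hc, div_le_one (by positivity)]
    linarith
  obtain ⟨C, hC⟩ : ∃ C, C = 4 * (91 + (P : ℝ)) / c := ⟨_, rfl⟩
  have hC2 : 2 ≤ C := by
    rw [hC, le_div_iff₀ hc0]
    linarith
  have tX : Tendsto (fun L : ℝ => ⌊c * L⌋₊) atTop atTop :=
    tendsto_nat_floor_atTop.comp (tendsto_id.const_mul_atTop hc0)
  have e3 : ∀ᶠ L : ℝ in atTop, 5408 * P * L ^ 4 ≤ Real.exp (η * L) := by
    have h1 : (fun x : ℝ => x ^ (4 : ℕ)) =o[atTop] fun x => Real.exp (η * x) :=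
      isLittleO_pow_exp_pos_mul_atTop 4 hη
    have h2 := (h1.def (c := 1 / (5408 * P)) (by positivity))
    filter_upwards [h2, eventually_ge_atTop (0 : ℝ)] with L h3 h4
    rw [Real.norm_of_nonneg (by positivity), Real.norm_of_nonneg (by positivity)] at h3
    calc 5408 * P * L ^ 4 ≤ 5408 * P * (1 / (5408 * P) * Real.exp (η * L)) := by
          gcongr
      _ = Real.exp (η * L) := by field_simp
  have hall := ((Real.tendsto_log_atTop.eventually_ge_atTop 1).and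
    (e3.and ((tX.eventually MP_b6b996_nt.EveryShortArc.logX).and ((tX.eventually_ge_atTop 2).and
    (eventually_ge_atTop (2 / c))))))
  obtain ⟨L₀, hL₀⟩ := eventually_atTop.1 hall
  refine ⟨C, L₀, fun L hL δ hδ hδ1 hδC N R hbig a ha α => ?_⟩
  obtain ⟨f1, f3, f4, f5, f6⟩ := hL₀ L hL
  obtain ⟨X, hX⟩ : ∃ X, X = ⌊c * L⌋₊ := ⟨_, rfl⟩
  rw [← hX] at f4 f5
  obtain ⟨LL, hLL⟩ : ∃ LL, LL = Real.log L := ⟨_, rfl⟩
  rw [← hLL] at f1 hδC
  have hL0 : 0 < L := by
    have : 0 < 2 / c := by positivity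
    linarith
  have hLLL : LL ≤ L := by
    rw [hLL]
    have := Real.log_le_sub_one_of_pos hL0
    linarith
  have hX1 : (X : ℝ) ≤ c * L := by
    rw [hX]
    exact Nat.floor_le (by positivity)
  have hX2 : c / 2 * L ≤ X := by
    have h1 := Nat.lt_floor_add_one (c * L)
    rw [← hX] at h1
    have h2 : 2 ≤ c * L := by
      have := (div_le_iff₀ hc0).1 f6
      linarith
    linarith
  have hX3 : (2 : ℝ) ≤ X := by exact_mod_cast f5
  obtain ⟨A, hA⟩ : ∃ A, A = Real.exp (η * L) := ⟨_, rfl⟩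
  rw [← hA] at f3 hbig
  have hA0 : 0 < A := by
    rw [hA]
    positivity
  have h16 : (16 : ℝ) ^ X ≤ A := by
    rw [hA, ← Real.rpow_natCast, Real.rpow_def_of_pos (by norm_num)]
    refine Real.exp_le_exp.2 ?_
    calc Real.log 16 * X ≤ Real.log 16 * (c * L) := mul_le_mul_of_nonneg_left hX1 hl16.le
      _ = η * L := by
        rw [hc]
        field_simp
  obtain ⟨k, H, hk, hH, hkH, hkle, hHle⟩ := MP_b6b996_nt.EveryShortArc.win_H hδ hδ1
  have hLL0 : 0 < LL := by linarith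
  have hδL : 1 ≤ δ * L := by
    refine le_trans ?_ hδC
    nlinarith
  have hlog : Real.log (2 / δ) ≤ LL := by
    rw [hLL]
    refine Real.log_le_log (by positivity) ?_
    rw [div_le_iff₀ hδ]
    have : 2 ≤ C * LL ^ 2 := by nlinarith
    linarith
  have hk6 : (k : ℝ) ≤ 6 * LL := by linarith
  obtain ⟨W, hW⟩ : ∃ W, W = LL / δ := ⟨_, rfl⟩
  have hW1 : 1 ≤ W := by
    rw [hW, le_div_iff₀ hδ]
    linarith
  have hHW' : (H : ℝ) ≤ 30 * W := by
    refine hHle.trans ?_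
    rw [hW]
    calc 5 * (k : ℝ) / δ ≤ 5 * (6 * LL) / δ := by gcongr
      _ = 30 * (LL / δ) := by ring
  have hWle : W * (C * LL) ≤ L := by
    rw [hW]
    calc LL / δ * (C * LL) = (C * LL ^ 2) / δ := by ring
      _ ≤ (δ * L) / δ := by gcongr
      _ = L := by field_simp
  have hlogX : Real.log X ≤ LL := by
    rw [hLL]
    refine Real.log_le_log (by linarith) (hX1.trans ?_)
    nlinarith
  have hpi := MP_b6b996_nt.EveryShortArc.pi_big hc0 hC hHW' hW1 hWle hLL0 hX2 hX3 hlogX f4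
  refine le_trans ?_ (MP_b6b996_nt.EveryShortArc.core hP hδ hδ1 hk hH hkH hpi h16 N R hbig a
    ha.old α)
  have hδ2 : 1 / L ≤ δ := by
    rw [div_le_iff₀ hL0]
    exact hδL
  have hk13 : 2 * (k : ℝ) + 1 ≤ 13 * L := by linarith
  have hP0 : (0 : ℝ) < P := by linarith
  have hR0 : (0 : ℝ) ≤ R := Nat.cast_nonneg R
  have hexp : Real.exp (-(2 * η * L)) = 1 / (A * A) := by
    rw [hA, ← Real.exp_add, Real.exp_neg, one_div]
    congr 2
    ring
  have hquot : (1 / L) ^ 2 / (4 * (13 * L) ^ 2) ≤ δ ^ 2 / (4 * (2 * k + 1) ^ 2) := by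
    have hk0 : (0 : ℝ) ≤ k := Nat.cast_nonneg k
    gcongr
  calc (R : ℝ) * Real.exp (-(2 * η * L)) = R / (A * A) := by
        rw [hexp]
        ring
    _ ≤ R / (5408 * (A * P) * L ^ 4) := by
        refine div_le_div_of_nonneg_left hR0 (by positivity) ?_
        calc 5408 * (A * P) * L ^ 4 = A * (5408 * P * L ^ 4) := by ring
          _ ≤ A * A := mul_le_mul_of_nonneg_left f3 hA0.le
    _ = R / (8 * (A * P)) * ((1 / L) ^ 2 / (4 * (13 * L) ^ 2)) := by
        field_simp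
        ring
    _ ≤ R / (8 * (A * P)) * (δ ^ 2 / (4 * (2 * k + 1) ^ 2)) :=
        mul_le_mul_of_nonneg_left hquot (by positivity)

/-- Hölder's inequality, `1 ≤ p ≤ 2`. -/
lemma lp {p : ℝ} (hp : p ≤ 2) {δ : ℝ} (hδ : 0 < δ) (a : ℕ → ℂ) (N R : ℕ) (α : ℝ)
    {M c : ℝ} (hM : ∀ x ∈ Set.Icc α (α + δ), ‖expSum a N R x‖ ≤ M) (hM0 : 0 < M)
    (h : c ≤ ∫ x in α..(α + δ), ‖expSum a N R x‖ ^ 2) (hp0 : 0 < p) :
    c * M ^ (p - 2) ≤ ∫ x in α..(α + δ), ‖expSum a N R x‖ ^ p := by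
  have h1 : ∫ x in α..(α + δ), ‖expSum a N R x‖ ^ 2 ≤
      ∫ x in α..(α + δ), M ^ (2 - p) * ‖expSum a N R x‖ ^ p := by
    refine intervalIntegral.integral_mono_on (by linarith)
      (((cont a N R).norm.pow 2).intervalIntegrable _ _)
      ((continuous_const.mul ((cont a N R).norm.rpow_const fun x => Or.inr hp0.le)).intervalIntegrable
        _ _) fun x hx => ?_
    have h2 := hM x hx
    rcases (norm_nonneg (expSum a N R x)).eq_or_lt with h3 | h3
    · rw [← h3, Real.zero_rpow hp0.ne']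
      simp
    · have h4 : ‖expSum a N R x‖ ^ 2 = ‖expSum a N R x‖ ^ (2 - p) * ‖expSum a N R x‖ ^ p := by
        rw [← Real.rpow_add h3, ← Real.rpow_natCast]
        congr 1
        push_cast
        ring
      rw [h4]
      exact mul_le_mul_of_nonneg_right (Real.rpow_le_rpow h3.le h2 (by linarith)) (by positivity)
  rw [intervalIntegral.integral_const_mul] at h1
  have h5 : 0 < M ^ (2 - p) := by positivity
  have h6 : M ^ (p - 2) = (M ^ (2 - p))⁻¹ := by
    rw [← Real.rpow_neg hM0.le]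
    congr 1
    ring
  rw [h6, ← div_eq_mul_inv, div_le_iff₀ h5]
  linarith

/-- Davenport's bound -/
lemma F_sup (U : ℕ) : ∃ N0 : ℕ, ∀ R : ℕ, N0 ≤ R → ∀ x : ℝ, ‖F R x‖ ≤ R / Real.log R ^ U := by
  obtain ⟨N0, h⟩ := Pool.Agent.H373R2.T7.sup_mu U
  refine ⟨N0, fun R hR x => ?_⟩
  have h1 := h R hR x
  have e : F R x = ∑ n ∈ Finset.Icc 1 R, ((Pool.Agent.H373R2.T7.muR n : ℝ) : ℂ) *
      Pool.Agent.H807R2.Dav.ee ((n : ℝ) * x) := by
    unfold F expSum Pool.Agent.H373R2.T7.muR Pool.Agent.H807R2.Dav.ee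
    have hI : Finset.Ioc 0 (0 + R) = Finset.Icc 1 R := by
      ext n
      simp only [Finset.mem_Ioc, Finset.mem_Icc]
      omega
    rw [hI]
    refine Finset.sum_congr rfl fun n _ => ?_
    push_cast
    congr 2
    ring
  rw [e]
  exact h1

/-- short arcs, the Möbius function -/
lemma mu_lp {p : ℝ} (hp0 : 0 < p) (hp : p < 2) (A : ℝ) :
    ∃ C R₀ : ℝ, ∀ R : ℕ, R₀ ≤ R → ∀ δ : ℝ, 0 < δ → δ ≤ 1 →
      C * Real.log (Real.log (Real.log R)) ^ 2 ≤ δ * Real.log (Real.log R) → ∀ α : ℝ,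
      (R : ℝ) ^ (p - 1) * Real.log R ^ A ≤ ∫ x in α..(α + δ), ‖F R x‖ ^ p := by
  obtain ⟨C, L₀, hL⟩ := shrinkCore one_pos (η := 1 / 2) (by norm_num) (by norm_num)
  obtain ⟨U, hU⟩ : ∃ U : ℕ, (A + 1) / (2 - p) ≤ U := exists_nat_ge _
  obtain ⟨N0, hN0⟩ := F_sup U
  have tlog : Tendsto (fun R : ℕ => Real.log (R : ℝ)) atTop atTop :=
    Real.tendsto_log_atTop.comp tendsto_natCast_atTop_atTop
  have tloglog : Tendsto (fun R : ℕ => Real.log (Real.log (R : ℝ))) atTop atTop :=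
    Real.tendsto_log_atTop.comp tlog
  have e3 : ∀ᶠ R : ℕ in atTop, 16 * Real.log (R : ℝ) ≤ Real.sqrt R := by
    have h1 : (fun x : ℝ => Real.log x) =o[atTop] fun x => x ^ (1 / 2 : ℝ) :=
      isLittleO_log_rpow_atTop (by norm_num)
    have h2 := (h1.def (c := 1 / 16) (by norm_num))
    filter_upwards [tendsto_natCast_atTop_atTop.eventually h2, tlog.eventually_ge_atTop 0] with R h3 h4
    rw [Real.norm_of_nonneg h4, Real.norm_of_nonneg (by positivity), ← Real.sqrt_eq_rpow] at h3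
    linarith
  have hall := ((tloglog.eventually_ge_atTop L₀).and ((tlog.eventually_ge_atTop 1).and
    (e3.and ((eventually_ge_atTop N0).and (eventually_ge_atTop 1)))))
  obtain ⟨R₀, hR₀⟩ := eventually_atTop.1 hall
  refine ⟨C, R₀, fun R hR δ hδ hδ1 hδC α => ?_⟩
  obtain ⟨f1, f2, f3, f4, f5⟩ := hR₀ R (by exact_mod_cast hR)
  have hR1 : (1 : ℝ) ≤ R := by exact_mod_cast f5
  have hRpos : (0 : ℝ) < R := by linarith
  obtain ⟨l, hl⟩ : ∃ l, l = Real.log (R : ℝ) := ⟨_, rfl⟩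
  rw [← hl] at f1 f2 f3 hδC
  have hl0 : 0 < l := by linarith
  have hexp : Real.exp (Real.log l) = l := Real.exp_log hl0
  have hs1 : 1 ≤ Real.sqrt R := Real.one_le_sqrt.2 hR1
  have hbig : 8 * (Real.exp (1 / 2 * Real.log l) * ((1 : ℕ) : ℝ)) * (1 + Real.sqrt (((0 : ℕ) : ℝ) + R)) ≤
      R := by
    have h1 : Real.exp (1 / 2 * Real.log l) ≤ l := by
      conv_rhs => rw [← hexp]
      refine Real.exp_le_exp.2 ?_
      have := Real.log_nonneg f2
      linarith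
    have h2 : Real.sqrt (((0 : ℕ) : ℝ) + R) = Real.sqrt R := by simp
    rw [h2, Nat.cast_one, mul_one]
    have h3 : 1 + Real.sqrt R ≤ 2 * Real.sqrt R := by linarith
    calc 8 * Real.exp (1 / 2 * Real.log l) * (1 + Real.sqrt R) ≤ 8 * l * (2 * Real.sqrt R) := by
          gcongr
      _ = 16 * l * Real.sqrt R := by ring
      _ ≤ Real.sqrt R * Real.sqrt R := by gcongr
      _ = R := Real.mul_self_sqrt hRpos.le
  have h1 := hL (Real.log l) f1 δ hδ hδ1 hδC 0 R hbig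
    (fun n => ((ArithmeticFunction.moebius n : ℤ) : ℂ))
    ⟨(MP_b6b996_nt.EveryShortArc.coef_mu 1).zero, (MP_b6b996_nt.EveryShortArc.coef_mu 1).one,
      (MP_b6b996_nt.EveryShortArc.coef_mu 1).le⟩ α
  have h2 : (R : ℝ) * Real.exp (-(2 * (1 / 2) * Real.log l)) = R / l := by
    rw [show -(2 * (1 / 2) * Real.log l) = -Real.log l by ring, Real.exp_neg, hexp]
    rfl
  rw [h2] at h1
  have hM0 : 0 < (R : ℝ) / l ^ U := by positivity
  have h3 := lp hp.le hδ (fun n => ((ArithmeticFunction.moebius n : ℤ) : ℂ)) 0 R α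
    (M := (R : ℝ) / l ^ U) (fun x _ => by rw [hl]; exact hN0 R f4 x) hM0 h1 hp0
  refine le_trans ?_ h3
  have h4 : A + 1 ≤ U * (2 - p) := by
    have := (div_le_iff₀ (by linarith : 0 < 2 - p)).1 hU
    linarith
  have e1 : (R : ℝ) / l * (R / l ^ U) ^ (p - 2) = (R : ℝ) ^ (p - 1) * l ^ (U * (2 - p) - 1) := by
    rw [Real.div_rpow hRpos.le (by positivity), ← Real.rpow_natCast l U, ← Real.rpow_mul hl0.le]
    have e2 : (R : ℝ) ^ (p - 1) = R * (R : ℝ) ^ (p - 2) := by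
      rw [show p - 1 = 1 + (p - 2) by ring, Real.rpow_add hRpos, Real.rpow_one]
    have e3 : l ^ ((U : ℝ) * (2 - p) - 1) = (l ^ ((U : ℝ) * (p - 2)))⁻¹ * l⁻¹ := by
      rw [← Real.rpow_neg hl0.le, ← Real.rpow_neg_one l, ← Real.rpow_add hl0]
      congr 1
      ring
    rw [e2, e3]
    field_simp
  rw [e1, ← hl]
  refine mul_le_mul_of_nonneg_left ?_ (by positivity)
  exact Real.rpow_le_rpow_of_exponent_le f2 (by linarith)

/-- **Main theorem.** -/
theorem result :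
    (∀ A δ : ℝ, 0 < δ → ∃ R₀ : ℝ, ∀ R : ℕ, R₀ ≤ R → ∀ α : ℝ,
      Real.log R ^ A ≤ ∫ x in α..(α + δ), ‖F R x‖) ∧
    (∀ A p : ℝ, 0 < p → p < 2 → ∃ C R₀ : ℝ, ∀ R : ℕ, R₀ ≤ R → ∀ δ : ℝ, 0 < δ → δ ≤ 1 →
      C * Real.log (Real.log (Real.log R)) ^ 2 ≤ δ * Real.log (Real.log R) → ∀ α : ℝ,
      (R : ℝ) ^ (p - 1) * Real.log R ^ A ≤ ∫ x in α..(α + δ), ‖F R x‖ ^ p) ∧
    (∀ P : ℕ, 0 < P → ∀ δ : ℝ, 0 < δ → δ ≤ 1 → ∃ c : ℝ, 0 < c ∧ ∀ N R : ℕ, 1 ≤ c * R →
      (N : ℝ) ≤ c * (R : ℝ) ^ 2 → ∀ a, Coef P a → ∀ α M p : ℝ, 0 < M → 0 < p → p ≤ 2 →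
      (∀ x ∈ Set.Icc α (α + δ), ‖expSum a N R x‖ ≤ M) →
      c * R * M ^ (p - 2) ≤ ∫ x in α..(α + δ), ‖expSum a N R x‖ ^ p) ∧
    (∀ θ B : ℝ, (∀ R : ℕ, 1 ≤ R → ∀ x : ℝ, ‖F R x‖ ≤ B * (R : ℝ) ^ θ) → ∀ ε : ℝ, 0 < ε →
      ∃ C R₀ : ℝ, ∀ R : ℕ, R₀ ≤ R → ∀ δ : ℝ, 0 < δ → δ ≤ 1 →
      C * Real.log (Real.log R) ^ 2 ≤ δ * Real.log R → ∀ α : ℝ,
      (R : ℝ) ^ (1 - θ - ε) ≤ ∫ x in α..(α + δ), ‖F R x‖) := by
  refine ⟨fun A δ hδ => ?_, fun A p hp0 hp => mu_lp hp0 hp A, fun P hP δ hδ hδ1 => ?_,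
    fun θ B hB ε hε => ?_⟩
  · obtain ⟨C, R₀, h⟩ := mu_lp one_pos one_lt_two A
    have tll : Tendsto (fun R : ℕ => Real.log (Real.log (R : ℝ))) atTop atTop :=
      Real.tendsto_log_atTop.comp (Real.tendsto_log_atTop.comp tendsto_natCast_atTop_atTop)
    obtain ⟨δ', hδ'⟩ : ∃ δ', δ' = min δ 1 := ⟨_, rfl⟩
    have hd0 : 0 < δ' := by
      rw [hδ']
      exact lt_min hδ one_pos
    have hd1 : δ' ≤ 1 := by
      rw [hδ']
      exact min_le_right _ _
    have hdd : δ' ≤ δ := by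
      rw [hδ']
      exact min_le_left _ _
    have h2 : (fun x : ℝ => Real.log x ^ (2 : ℕ)) =o[atTop] fun x => x := by
      have := isLittleO_log_rpow_rpow_atTop (2 : ℝ) (one_pos : (0 : ℝ) < 1)
      simpa using this
    have h3 := (h2.def (c := δ' / (|C| + 1)) (by positivity))
    obtain ⟨R₁, hR₁⟩ := eventually_atTop.1 ((tll.eventually h3).and (tll.eventually_ge_atTop 0))
    refine ⟨max R₀ R₁, fun R hR α => ?_⟩
    obtain ⟨h4, h5⟩ := hR₁ R (by exact_mod_cast (le_max_right _ _).trans hR)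
    rw [Real.norm_of_nonneg (by positivity), Real.norm_of_nonneg h5] at h4
    have h6 : C * Real.log (Real.log (Real.log (R : ℝ))) ^ 2 ≤ δ' * Real.log (Real.log R) := by
      have h7 : 0 ≤ Real.log (Real.log (Real.log (R : ℝ))) ^ 2 := by positivity
      calc C * Real.log (Real.log (Real.log (R : ℝ))) ^ 2
          ≤ (|C| + 1) * Real.log (Real.log (Real.log (R : ℝ))) ^ 2 :=
            mul_le_mul_of_nonneg_right (by linarith [le_abs_self C]) h7
        _ ≤ (|C| + 1) * (δ' / (|C| + 1) * Real.log (Real.log R)) := by gcongr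
        _ = δ' * Real.log (Real.log R) := by field_simp
    have h8 := h R ((le_max_left _ _).trans hR) δ' hd0 hd1 h6 α
    simp only [sub_self, Real.rpow_zero, one_mul, Real.rpow_one] at h8
    refine h8.trans ?_
    refine intervalIntegral.integral_mono_interval le_rfl (by linarith) (by linarith)
      (Eventually.of_forall fun x => norm_nonneg _) ?_
    exact (cont _ 0 R).norm.intervalIntegrable _ _
  · obtain ⟨c, hc, h⟩ := MP_b6b996_nt.EveryShortArc.fixed' hP hδ hδ1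
    refine ⟨c, hc, fun N R h1 h2 a ha α M p hM0 hp0 hp2 hM => ?_⟩
    exact lp hp2 hδ a N R α hM hM0 (h N R h1 h2 a ha.old α).1 hp0
  · obtain ⟨ε', hε'⟩ : ∃ ε', ε' = min (ε / 2) (1 / 2) := ⟨_, rfl⟩
    have he0 : 0 < ε' := by
      rw [hε']
      exact lt_min (by linarith) (by norm_num)
    have he1 : ε' ≤ 1 / 2 := by
      rw [hε']
      exact min_le_right _ _
    have he2 : ε' ≤ ε / 2 := by
      rw [hε']
      exact min_le_left _ _
    obtain ⟨C, R₀, h⟩ := MP_b6b996_nt.EveryShortArc.shrink one_pos he0 he1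
    have tpow : Tendsto (fun R : ℕ => (R : ℝ) ^ (ε / 2)) atTop atTop :=
      (tendsto_rpow_atTop (by positivity)).comp tendsto_natCast_atTop_atTop
    obtain ⟨R₁, hR₁⟩ := eventually_atTop.1 ((tpow.eventually_ge_atTop (|B| + 1)).and
      (eventually_ge_atTop 1))
    refine ⟨C, max R₀ R₁, fun R hR δ hδ hδ1 hδC α => ?_⟩
    obtain ⟨f1, f2⟩ := hR₁ R (by exact_mod_cast (le_max_right _ _).trans hR)
    have hR1 : (1 : ℝ) ≤ R := by exact_mod_cast f2
    have hRpos : (0 : ℝ) < R := by linarith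
    have h1 := h 0 R ((le_max_left _ _).trans hR) (by
      rw [Nat.cast_zero]
      positivity) δ hδ hδ1 hδC (fun n => ((ArithmeticFunction.moebius n : ℤ) : ℂ))
      (MP_b6b996_nt.EveryShortArc.coef_mu 1) α
    have hM0 : 0 < (|B| + 1) * (R : ℝ) ^ θ := by positivity
    have h2 := lp (p := 1) (by norm_num) hδ (fun n => ((ArithmeticFunction.moebius n : ℤ) : ℂ)) 0 R α
      (M := (|B| + 1) * (R : ℝ) ^ θ) (fun x _ => by
        refine (hB R f2 x).trans ?_
        exact mul_le_mul_of_nonneg_right (by linarith [le_abs_self B]) (by positivity)) hM0 h1 one_pos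
    simp only [Real.rpow_one] at h2
    refine le_trans ?_ h2
    rw [show (1 : ℝ) - 2 = -1 by norm_num, Real.rpow_neg_one, ← div_eq_mul_inv,
      le_div_iff₀ hM0]
    calc (R : ℝ) ^ (1 - θ - ε) * ((|B| + 1) * (R : ℝ) ^ θ)
        ≤ (R : ℝ) ^ (1 - θ - ε) * ((R : ℝ) ^ (ε / 2) * (R : ℝ) ^ θ) := by gcongr
      _ = (R : ℝ) ^ (1 - ε / 2) := by
        rw [← Real.rpow_add hRpos, ← Real.rpow_add hRpos]
        congr 1
        ring
      _ ≤ (R : ℝ) ^ (1 - ε') := Real.rpow_le_rpow_of_exponent_le hR1 (by linarith)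

end Pool.Agent.Results.MP_6cded1_nt.EveryArc
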